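import Mathlib

open MeasureTheory Filter Topology
open scoped ENNReal

namespace Pool.Agent.Results.MP_eb9ef7_pr.SelectionsConverge

/-- A random closed set in `E`: a map from `Ω` to the closed subsets of `E` which is Effros
measurable, that is `{ω : X(ω) ∩ G ≠ ∅}` is an event for every open `G`. -/
structure IsRandomClosedSet {Ω E : Type*} [MeasurableSpace Ω] [TopologicalSpace E]
    (X : Ω → Set E) : Prop where
  isClosed : ∀ ω, IsClosed (X ω)
  measurableSet_hit : ∀ G : Set E, IsOpen G → MeasurableSet {ω | (X ω ∩ G).Nonempty}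

lemma IsRandomClosedSet.measurable_infEDist {Ω₀ E : Type*} [MeasurableSpace Ω₀]
    [MetricSpace E] {Y : Ω₀ → Set E} (hY : IsRandomClosedSet Y) (y : E) :
    Measurable (fun ω => Metric.infEDist y (Y ω)) := by
  refine measurable_of_Iio fun t => ?_
  have : (fun ω => Metric.infEDist y (Y ω)) ⁻¹' Set.Iio t =
      {ω | (Y ω ∩ Metric.eball y t).Nonempty} := by
    ext ω
    simp only [Set.mem_preimage, Set.mem_Iio, Metric.infEDist_lt_iff, Set.mem_ofPred_eq]
    constructor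
    · rintro ⟨z, hz, hz2⟩
      exact ⟨z, hz, by rw [Metric.mem_eball, edist_comm]; exact hz2⟩
    · rintro ⟨z, hz, hz2⟩
      exact ⟨z, hz, by rw [Metric.mem_eball, edist_comm] at hz2; exact hz2⟩
  rw [this]
  exact hY.measurableSet_hit _ Metric.isOpen_eball

section pick

open Classical in
/-- first index in `S` with `v i < t`, or the default `c` -/
noncomputable def pick (v : ℕ → ℝ≥0∞) (t : ℝ≥0∞) (S : Set ℕ) (c : ℕ) : ℕ :=
  if h : ∃ i, i ∈ S ∧ v i < t then Nat.find h else c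

open Classical in
lemma pick_eq_iff (v : ℕ → ℝ≥0∞) (t : ℝ≥0∞) (S : Set ℕ) (c j : ℕ) :
    pick v t S c = j ↔ ((j ∈ S ∧ v j < t) ∧ ∀ i < j, ¬ (i ∈ S ∧ v i < t)) ∨
      ((∀ i, ¬ (i ∈ S ∧ v i < t)) ∧ c = j) := by
  unfold pick
  by_cases h : ∃ i, i ∈ S ∧ v i < t
  · rw [dif_pos h, Nat.find_eq_iff]
    constructor
    · intro h1; exact Or.inl h1
    · rintro (h1 | h1)
      · exact h1
      · obtain ⟨i, hi⟩ := h; exact absurd hi (h1.1 i)
  · rw [dif_neg h]
    push Not at h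
    constructor
    · intro h1; exact Or.inr ⟨fun i hi => absurd hi.2 (not_lt.2 (h i hi.1)), h1⟩
    · rintro (h1 | h1)
      · exact absurd h1.1.2 (not_lt.2 (h j h1.1.1))
      · exact h1.2

lemma pick_spec {v : ℕ → ℝ≥0∞} {t : ℝ≥0∞} {S : Set ℕ} {c : ℕ} (h : ∃ i, i ∈ S ∧ v i < t) :
    pick v t S c ∈ S ∧ v (pick v t S c) < t := by
  rcases (pick_eq_iff v t S c _).1 rfl with h1 | h1
  · exact h1.1
  · obtain ⟨i, hi⟩ := h; exact absurd hi (h1.1 i)

lemma pick_mem_or (v : ℕ → ℝ≥0∞) (t : ℝ≥0∞) (S : Set ℕ) (c : ℕ) :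
    pick v t S c ∈ S ∨ pick v t S c = c := by
  rcases (pick_eq_iff v t S c _).1 rfl with h1 | h1
  · exact Or.inl h1.1.1
  · exact Or.inr h1.2.symm

lemma measurable_pick (t : ℝ≥0∞) (S : Set ℕ) (c : ℕ) :
    Measurable (fun v : ℕ → ℝ≥0∞ => pick v t S c) := by
  refine measurable_to_countable' fun j => ?_
  have h0 : ∀ i, MeasurableSet {v : ℕ → ℝ≥0∞ | i ∈ S ∧ v i < t} := fun i =>
    (MeasurableSet.const (i ∈ S)).inter (measurableSet_lt (measurable_pi_apply i) measurable_const)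
  have : (fun v : ℕ → ℝ≥0∞ => pick v t S c) ⁻¹' {j} =
      ({v | j ∈ S ∧ v j < t} ∩ ⋂ i ∈ Set.Iio j, {v : ℕ → ℝ≥0∞ | i ∈ S ∧ v i < t}ᶜ) ∪
      ((⋂ i, {v : ℕ → ℝ≥0∞ | i ∈ S ∧ v i < t}ᶜ) ∩ {_v | c = j}) := by
    ext v
    simp only [Set.mem_preimage, Set.mem_singleton_iff, pick_eq_iff, Set.mem_union,
      Set.mem_inter_iff, Set.mem_ofPred_eq, Set.mem_iInter, Set.mem_compl_iff, Set.mem_Iio]
  rw [this]
  refine ((h0 j).inter ?_).union ((MeasurableSet.iInter fun i => (h0 i).compl).inter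
    (MeasurableSet.const _))
  exact MeasurableSet.biInter (Set.to_countable _) fun i _ => (h0 i).compl

lemma pick_locally_const {v : ℕ → ℝ≥0∞} {t : ℝ≥0∞} {S : Set ℕ} {c : ℕ}
    (h : ∃ i, i ∈ S ∧ v i < t) (hne : ∀ i, v i ≠ t) :
    ∀ᶠ w in 𝓝 v, pick w t S c = pick v t S c := by
  set j := pick v t S c with hj
  have h1 : (j ∈ S ∧ v j < t) ∧ ∀ i < j, ¬ (i ∈ S ∧ v i < t) := by
    rcases (pick_eq_iff v t S c j).1 rfl with h1 | h1
    · exact h1
    · obtain ⟨i, hi⟩ := h; exact absurd hi (h1.1 i)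
  have e1 : ∀ᶠ w in 𝓝 v, w j < t :=
    (continuous_apply j).continuousAt.eventually (gt_mem_nhds h1.1.2)
  have e2 : ∀ᶠ w in 𝓝 v, ∀ i ∈ Set.Iio j, ¬ (i ∈ S ∧ w i < t) := by
    rw [eventually_all_finite (Set.finite_Iio j)]
    intro i hi
    by_cases hS : i ∈ S
    · have h2 : t < v i := by
        have := h1.2 i hi
        have h3 : ¬ v i < t := fun h => this ⟨hS, h⟩
        exact lt_of_le_of_ne (not_lt.1 h3) (hne i).symm
      have := (continuous_apply (A := fun _ : ℕ => ℝ≥0∞) i).continuousAt.eventually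
        (lt_mem_nhds (b := v i) h2)
      filter_upwards [this] with w hw hw2
      exact absurd hw2.2 (not_lt.2 hw.le)
    · exact Eventually.of_forall fun w hw => hS hw.1
  filter_upwards [e1, e2] with w hw1 hw2
  exact (pick_eq_iff w t S c j).2 (Or.inl ⟨⟨h1.1.1, hw1⟩, hw2⟩)

end pick

section idx

variable {E : Type*} [MetricSpace E]

/-- the indices of the successive approximations of the selected point -/
noncomputable def idx (x : ℕ → E) (r : ℕ → ℝ) (v : ℕ → ℝ≥0∞) : ℕ → ℕ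
  | 0 => pick v (ENNReal.ofReal (r 0)) Set.univ 0
  | m + 1 => pick v (ENNReal.ofReal (r (m + 1)))
      {i | dist (x i) (x (idx x r v m)) < r m + r (m + 1)} (idx x r v m)

/-- all the index sets are nonempty -/
def Good (x : ℕ → E) (r : ℕ → ℝ) (v : ℕ → ℝ≥0∞) : Prop :=
  (∃ i, i ∈ (Set.univ : Set ℕ) ∧ v i < ENNReal.ofReal (r 0)) ∧
  ∀ m, ∃ i, i ∈ {i | dist (x i) (x (idx x r v m)) < r m + r (m + 1)} ∧
    v i < ENNReal.ofReal (r (m + 1))

lemma measurable_idx (x : ℕ → E) (r : ℕ → ℝ) (m : ℕ) :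
    Measurable (fun v : ℕ → ℝ≥0∞ => idx x r v m) := by
  induction m with
  | zero => exact measurable_pick _ _ _
  | succ m ih =>
    have h : Measurable (fun p : (ℕ → ℝ≥0∞) × ℕ => pick p.1 (ENNReal.ofReal (r (m + 1)))
      {i | dist (x i) (x p.2) < r m + r (m + 1)} p.2) :=
      measurable_from_prod_countable_left fun a => measurable_pick (ENNReal.ofReal (r (m + 1)))
        {i | dist (x i) (x a) < r m + r (m + 1)} a
    exact h.comp (measurable_id.prodMk ih)

lemma idx_locally_const {x : ℕ → E} {r : ℕ → ℝ} {v : ℕ → ℝ≥0∞} (hg : Good x r v)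
    (hne : ∀ i m, v i ≠ ENNReal.ofReal (r m)) (m : ℕ) :
    ∀ᶠ w in 𝓝 v, idx x r w m = idx x r v m := by
  induction m with
  | zero => exact pick_locally_const hg.1 (fun i => hne i 0)
  | succ m ih =>
    have h := pick_locally_const (c := idx x r v m) (hg.2 m) (fun i => hne i (m + 1))
    filter_upwards [ih, h] with w hw1 hw2
    simp only [idx] at hw2 ⊢
    rw [hw1]
    exact hw2

lemma dist_idx_succ {x : ℕ → E} {r : ℕ → ℝ} (hr0 : ∀ m, 0 < r m)
    (hr : ∀ m, r m ≤ 1 / 2 ^ m) (v : ℕ → ℝ≥0∞) (m : ℕ) :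
    dist (x (idx x r v m)) (x (idx x r v (m + 1))) ≤ 4 / 2 / 2 ^ m := by
  have h : dist (x (idx x r v (m + 1))) (x (idx x r v m)) ≤ r m + r (m + 1) := by
    rcases pick_mem_or v (ENNReal.ofReal (r (m + 1)))
      {i | dist (x i) (x (idx x r v m)) < r m + r (m + 1)} (idx x r v m) with h1 | h1
    · exact le_of_lt h1
    · have : idx x r v (m + 1) = idx x r v m := h1
      rw [this, dist_self]
      exact (add_pos (hr0 m) (hr0 (m + 1))).le
  rw [dist_comm]
  refine h.trans ?_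
  have h1 := hr m
  have h2 := hr (m + 1)
  have h3 : (1 : ℝ) / 2 ^ (m + 1) ≤ 1 / 2 ^ m := by
    apply one_div_le_one_div_of_le (by positivity)
    exact pow_le_pow_right₀ (by norm_num) (by omega)
  have h4 : (4 : ℝ) / 2 / 2 ^ m = 1 / 2 ^ m + 1 / 2 ^ m := by ring
  linarith

lemma cauchy_idx {x : ℕ → E} {r : ℕ → ℝ} (hr0 : ∀ m, 0 < r m)
    (hr : ∀ m, r m ≤ 1 / 2 ^ m) (v : ℕ → ℝ≥0∞) :
    CauchySeq (fun m => x (idx x r v m)) :=
  cauchySeq_of_le_geometric_two (C := 4) (dist_idx_succ hr0 hr v)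

variable [Nonempty E]

/-- the selected point, as a function of the distances to a dense sequence -/
noncomputable def sel (x : ℕ → E) (r : ℕ → ℝ) (v : ℕ → ℝ≥0∞) : E :=
  limUnder atTop (fun m => x (idx x r v m))

variable [CompleteSpace E]

lemma tendsto_sel {x : ℕ → E} {r : ℕ → ℝ} (hr0 : ∀ m, 0 < r m)
    (hr : ∀ m, r m ≤ 1 / 2 ^ m) (v : ℕ → ℝ≥0∞) :
    Tendsto (fun m => x (idx x r v m)) atTop (𝓝 (sel x r v)) :=
  (cauchy_idx (x := x) hr0 hr v).tendsto_limUnder

lemma dist_sel {x : ℕ → E} {r : ℕ → ℝ} (hr0 : ∀ m, 0 < r m)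
    (hr : ∀ m, r m ≤ 1 / 2 ^ m) (v : ℕ → ℝ≥0∞) (m : ℕ) :
    dist (x (idx x r v m)) (sel x r v) ≤ 4 / 2 ^ m :=
  dist_le_of_le_geometric_two_of_tendsto (C := 4) (dist_idx_succ hr0 hr v)
    (tendsto_sel hr0 hr v) m

lemma continuousAt_sel {x : ℕ → E} {r : ℕ → ℝ} (hr0 : ∀ m, 0 < r m)
    (hr : ∀ m, r m ≤ 1 / 2 ^ m) {v : ℕ → ℝ≥0∞} (hg : Good x r v)
    (hne : ∀ i m, v i ≠ ENNReal.ofReal (r m)) : ContinuousAt (sel x r) v := by
  rw [Metric.continuousAt_iff']
  intro ε hε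
  obtain ⟨m, hm⟩ : ∃ m : ℕ, (1 / 2 : ℝ) ^ m < ε / 8 :=
    exists_pow_lt_of_lt_one (by positivity) (by norm_num)
  filter_upwards [idx_locally_const hg hne m] with w hw
  have h1 := dist_sel (x := x) hr0 hr w m
  have h2 := dist_sel (x := x) hr0 hr v m
  rw [hw] at h1
  have h3 : (4 : ℝ) / 2 ^ m < ε / 2 := by
    have : (4 : ℝ) / 2 ^ m = 4 * (1 / 2) ^ m := by
      rw [one_div, inv_pow]; rfl
    rw [this]; linarith
  have h4 := dist_triangle_left (sel x r w) (sel x r v) (x (idx x r v m))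
  linarith

lemma measurable_sel [MeasurableSpace E] [BorelSpace E] {x : ℕ → E} {r : ℕ → ℝ}
    (hr0 : ∀ m, 0 < r m) (hr : ∀ m, r m ≤ 1 / 2 ^ m) : Measurable (sel x r) := by
  refine measurable_of_tendsto_metrizable (f := fun m v => x (idx x r v m)) (fun m => ?_) ?_
  · exact (measurable_from_nat (f := x)).comp (measurable_idx x r m)
  · rw [tendsto_pi_nhds]
    exact fun v => tendsto_sel hr0 hr v

omit [Nonempty E] [CompleteSpace E] in
/-- distance vectors of nonempty sets are good, and the selected point is at distance `0` -/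
lemma good_of_set {x : ℕ → E} (hx : DenseRange x) {r : ℕ → ℝ} (hr0 : ∀ m, 0 < r m)
    {F : Set E} (hF : F.Nonempty) :
    Good x r (fun i => Metric.infEDist (x i) F) ∧
      ∀ m, Metric.infEDist (x (idx x r (fun i => Metric.infEDist (x i) F) m)) F
        < ENNReal.ofReal (r m) := by
  set v : ℕ → ℝ≥0∞ := fun i => Metric.infEDist (x i) F with hv
  have h0 : ∃ i, i ∈ (Set.univ : Set ℕ) ∧ v i < ENNReal.ofReal (r 0) := by
    obtain ⟨y, hy⟩ := hF
    obtain ⟨i, hi⟩ := hx.exists_dist_lt y (hr0 0)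
    refine ⟨i, Set.mem_univ _, ?_⟩
    refine (Metric.infEDist_le_edist_of_mem hy).trans_lt ?_
    rw [edist_dist, dist_comm]
    exact (ENNReal.ofReal_lt_ofReal_iff (hr0 0)).2 hi
  have hstep : ∀ m, v (idx x r v m) < ENNReal.ofReal (r m) →
      ∃ i, i ∈ {i | dist (x i) (x (idx x r v m)) < r m + r (m + 1)} ∧
        v i < ENNReal.ofReal (r (m + 1)) := by
    intro m hm
    obtain ⟨y, hy, hy2⟩ := Metric.infEDist_lt_iff.1 hm
    rw [edist_dist, ENNReal.ofReal_lt_ofReal_iff (hr0 m)] at hy2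
    obtain ⟨i, hi⟩ := hx.exists_dist_lt y (hr0 (m + 1))
    refine ⟨i, ?_, ?_⟩
    · simp only [Set.mem_ofPred_eq]
      calc dist (x i) (x (idx x r v m)) ≤ dist (x i) y + dist y (x (idx x r v m)) :=
            dist_triangle _ _ _
        _ < r (m + 1) + r m := by
            rw [dist_comm (x i), dist_comm y (x (idx x r v m))]; exact add_lt_add hi hy2
        _ = r m + r (m + 1) := by ring
    · refine (Metric.infEDist_le_edist_of_mem hy).trans_lt ?_
      rw [edist_dist, dist_comm]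
      exact (ENNReal.ofReal_lt_ofReal_iff (hr0 (m + 1))).2 hi
  have hall : ∀ m, v (idx x r v m) < ENNReal.ofReal (r m) := by
    intro m
    induction m with
    | zero => exact (pick_spec h0).2
    | succ m ih => exact (pick_spec (hstep m ih)).2
  exact ⟨⟨h0, fun m => hstep m (hall m)⟩, hall⟩

lemma sel_mem {x : ℕ → E} (hx : DenseRange x) {r : ℕ → ℝ} (hr0 : ∀ m, 0 < r m)
    (hr : ∀ m, r m ≤ 1 / 2 ^ m) {F : Set E} (hF : F.Nonempty) (hFc : IsClosed F) :
    sel x r (fun i => Metric.infEDist (x i) F) ∈ F := by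
  set v : ℕ → ℝ≥0∞ := fun i => Metric.infEDist (x i) F with hv
  rw [Metric.mem_iff_infEDist_zero_of_closed hFc]
  have h1 := (good_of_set hx hr0 hF).2
  have h2 : Tendsto (fun m => Metric.infEDist (x (idx x r v m)) F) atTop
      (𝓝 (Metric.infEDist (sel x r v) F)) :=
    (Metric.continuous_infEDist.tendsto _).comp (tendsto_sel hr0 hr v)
  have h3 : Tendsto (fun m => Metric.infEDist (x (idx x r v m)) F) atTop (𝓝 0) := by
    have hr00 : Tendsto r atTop (𝓝 0) := by
      refine squeeze_zero (fun m => (hr0 m).le) hr ?_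
      have := tendsto_pow_atTop_nhds_zero_of_lt_one (r := (1 / 2 : ℝ)) (by norm_num) (by norm_num)
      refine this.congr fun m => ?_
      rw [one_div, inv_pow, one_div]
    have h4 : Tendsto (fun m => ENNReal.ofReal (r m)) atTop (𝓝 0) := by
      have := ENNReal.tendsto_ofReal hr00
      simpa using this
    exact tendsto_of_tendsto_of_tendsto_of_le_of_le tendsto_const_nhds h4
      (fun m => bot_le) (fun m => (h1 m).le)
  exact tendsto_nhds_unique h2 h3

end idx

section probability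

/-- thresholds avoiding the atoms of countably many random variables -/
lemma exists_threshold {Ω : Type*} [MeasurableSpace Ω] (P : Measure Ω) [IsProbabilityMeasure P]
    (V : Ω → ℕ → ℝ≥0∞) (hV : Measurable V) (a b : ℝ) (ha : 0 ≤ a) (hab : a < b) :
    ∃ r : ℝ, a < r ∧ r < b ∧ ∀ i, P {ω | V ω i = ENNReal.ofReal r} = 0 := by
  have hVi : ∀ i, Measurable (fun ω => V ω i) := fun i => (measurable_pi_apply i).comp hV
  have hc : ∀ i, {t : ℝ≥0∞ | 0 < P {ω | V ω i = t}}.Countable := by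
    intro i
    refine Measure.countable_meas_pos_of_disjoint_iUnion (μ := P)
      (As := fun t : ℝ≥0∞ => {ω | V ω i = t}) (fun t => ?_) ?_
    · exact hVi i (measurableSet_singleton t)
    · intro s t hst
      rw [Function.onFun, Set.disjoint_left]
      intro ω h1 h2
      exact hst (h1.symm.trans h2)
  have hC : (⋃ i, {t : ℝ≥0∞ | 0 < P {ω | V ω i = t}}).Countable := Set.countable_iUnion hc
  have hT : ((ENNReal.ofReal ⁻¹' (⋃ i, {t : ℝ≥0∞ | 0 < P {ω | V ω i = t}})) ∩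
      Set.Ioi (0 : ℝ)).Countable := by
    have : ((ENNReal.ofReal ⁻¹' (⋃ i, {t : ℝ≥0∞ | 0 < P {ω | V ω i = t}})) ∩
      Set.Ioi (0 : ℝ)) = (fun x : Set.Ioi (0 : ℝ) => (x : ℝ)) ''
        ((fun x : Set.Ioi (0 : ℝ) => ENNReal.ofReal x) ⁻¹'
          (⋃ i, {t : ℝ≥0∞ | 0 < P {ω | V ω i = t}})) := by
      ext s
      constructor
      · rintro ⟨h1, h2⟩; exact ⟨⟨s, h2⟩, h1, rfl⟩
      · rintro ⟨⟨s', h2⟩, h1, rfl⟩; exact ⟨h1, h2⟩
    rw [this]
    refine Set.Countable.image (Set.Countable.preimage_of_injOn hC ?_) _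
    rintro ⟨s, hs⟩ - ⟨t, ht⟩ - hst
    have := congrArg ENNReal.toReal hst
    simp only at this
    rw [ENNReal.toReal_ofReal (le_of_lt hs), ENNReal.toReal_ofReal (le_of_lt ht)] at this
    exact Subtype.ext this
  obtain ⟨r, hr1, hr2⟩ := (hT.dense_compl ℝ).exists_between hab
  refine ⟨r, hr2.1, hr2.2, fun i => ?_⟩
  by_contra hne
  exact hr1 ⟨Set.mem_iUnion.2 ⟨i, pos_iff_ne_zero.2 hne⟩, lt_of_le_of_lt ha hr2.1⟩

variable {Ω : ℕ → Type*} [∀ n, MeasurableSpace (Ω n)] {P : (n : ℕ) → Measure (Ω n)}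
  [∀ n, IsProbabilityMeasure (P n)] {Ω' : Type*} [MeasurableSpace Ω'] {P' : Measure Ω'}
  [IsProbabilityMeasure P']

/-- convergence of the finite-dimensional laws gives the open-set inequality in the
infinite product -/
lemma le_liminf_open (V : (n : ℕ) → Ω n → ℕ → ℝ≥0∞) (V' : Ω' → ℕ → ℝ≥0∞)
    (hV : ∀ n, Measurable (V n)) (hV' : Measurable V')
    (h : ∀ k : ℕ, TendstoInDistribution (fun n ω (i : Fin k) => V n ω i) atTop
      (fun ω (i : Fin k) => V' ω i) P P')
    {O : Set (ℕ → ℝ≥0∞)} (hO : IsOpen O) :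
    P' (V' ⁻¹' O) ≤ liminf (fun n => P n (V n ⁻¹' O)) atTop := by
  set π : (k : ℕ) → (ℕ → ℝ≥0∞) → (Fin k → ℝ≥0∞) := fun k v i => v i with hπ
  set U : (k : ℕ) → Set (Fin k → ℝ≥0∞) := fun k => ⋃₀ {W | IsOpen W ∧ π k ⁻¹' W ⊆ O} with hU
  have hUo : ∀ k, IsOpen (U k) := fun k => isOpen_sUnion fun W hW => hW.1
  have hUsub : ∀ k, π k ⁻¹' (U k) ⊆ O := by
    intro k v hv
    obtain ⟨W, hW, hvW⟩ := hv
    exact hW.2 hvW
  have hmono : Monotone fun k => π k ⁻¹' (U k) := by
    refine monotone_nat_of_le_succ fun k v hv => ?_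
    obtain ⟨W, hW, hvW⟩ := hv
    have hc : Continuous (fun (w : Fin (k + 1) → ℝ≥0∞) (i : Fin k) => w i.castSucc) := by
      fun_prop
    refine ⟨(fun (w : Fin (k + 1) → ℝ≥0∞) (i : Fin k) => w i.castSucc) ⁻¹' W,
      ⟨hW.1.preimage hc, ?_⟩, hvW⟩
    intro u hu
    exact hW.2 hu
  have hUn : (⋃ k, π k ⁻¹' (U k)) = O := by
    apply Set.Subset.antisymm (Set.iUnion_subset hUsub)
    intro v hv
    obtain ⟨I, u, hu1, hu2⟩ := isOpen_pi_iff.1 hO v hv
    obtain ⟨K, hK⟩ : ∃ K : ℕ, ∀ i ∈ I, i < K := by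
      refine ⟨I.sup id + 1, fun i hi => ?_⟩
      exact Nat.lt_succ_of_le (Finset.le_sup (f := id) hi)
    refine Set.mem_iUnion.2 ⟨K, ⟨⋂ i : I, {w : Fin K → ℝ≥0∞ | w ⟨i, hK i i.2⟩ ∈ u i},
      ⟨?_, ?_⟩, ?_⟩⟩
    · refine isOpen_iInter_of_finite fun i => ?_
      exact (hu1 i i.2).1.preimage (continuous_apply _)
    · intro w hw
      apply hu2
      intro i hi
      have := Set.mem_iInter.1 hw ⟨i, hi⟩
      exact this
    · refine Set.mem_iInter.2 fun i => ?_
      exact (hu1 i i.2).2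
  have hπm : ∀ k, Measurable (π k) := fun k => measurable_pi_lambda _ fun i => measurable_pi_apply _
  have hsup : P' (V' ⁻¹' O) = ⨆ k, P' (V' ⁻¹' (π k ⁻¹' (U k))) := by
    rw [← hUn, Set.preimage_iUnion]
    refine Monotone.measure_iUnion ?_
    intro a b hab
    exact Set.preimage_mono (hmono hab)
  rw [hsup]
  refine iSup_le fun k => ?_
  have hk := (h k).tendsto
  have h1 := ProbabilityMeasure.le_liminf_measure_open_of_tendsto hk (hUo k)
  simp only [ProbabilityMeasure.coe_mk] at h1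
  rw [Measure.map_apply (show Measurable (fun ω (i : Fin k) => V' ω i) from (hπm k).comp hV')
    (hUo k).measurableSet] at h1
  refine le_trans h1 ?_
  refine liminf_le_liminf ?_
  refine Eventually.of_forall fun n => ?_
  rw [Measure.map_apply (show Measurable (fun ω (i : Fin k) => V n ω i) from (hπm k).comp (hV n))
    (hUo k).measurableSet]
  exact measure_mono (fun ω hω => hUsub k hω)

end probability

/-- **Q1 has a positive answer**, in every complete separable metric space. -/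
theorem result {E : Type*} [MetricSpace E] [CompleteSpace E] [SecondCountableTopology E]
    [MeasurableSpace E] [BorelSpace E]
    {Ω : ℕ → Type*} [∀ n, MeasurableSpace (Ω n)] {P : (n : ℕ) → Measure (Ω n)}
    [∀ n, IsProbabilityMeasure (P n)] {Ω' : Type*} [MeasurableSpace Ω'] {P' : Measure Ω'}
    [IsProbabilityMeasure P']
    (X : (n : ℕ) → Ω n → Set E) (X' : Ω' → Set E)
    (hX : ∀ n, IsRandomClosedSet (X n)) (hX' : IsRandomClosedSet X')
    (hne : ∀ n, ∀ᵐ ω ∂P n, (X n ω).Nonempty) (hne' : ∀ᵐ ω ∂P', (X' ω).Nonempty)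
    (hconv : ∀ (k : ℕ) (x : Fin k → E),
      TendstoInDistribution (fun n ω (i : Fin k) => Metric.infEDist (x i) (X n ω)) atTop
        (fun ω (i : Fin k) => Metric.infEDist (x i) (X' ω)) P P') :
    ∃ (ξ : (n : ℕ) → Ω n → E) (ξ' : Ω' → E),
      (∀ n, Measurable (ξ n)) ∧ (∀ n, ∀ᵐ ω ∂P n, ξ n ω ∈ X n ω) ∧
      Measurable ξ' ∧ (∀ᵐ ω ∂P', ξ' ω ∈ X' ω) ∧
      TendstoInDistribution ξ atTop ξ' P P' := by
  have hEne : Nonempty E := by
    obtain ⟨ω, hω⟩ := hne'.exists
    exact ⟨hω.some⟩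
  set x : ℕ → E := TopologicalSpace.denseSeq E with hx
  have hxd : DenseRange x := TopologicalSpace.denseRange_denseSeq E
  set V : (n : ℕ) → Ω n → ℕ → ℝ≥0∞ := fun n ω i => Metric.infEDist (x i) (X n ω) with hVdef
  set V' : Ω' → ℕ → ℝ≥0∞ := fun ω i => Metric.infEDist (x i) (X' ω) with hV'def
  have hV : ∀ n, Measurable (V n) := fun n => measurable_pi_lambda _ fun i => (hX n).measurable_infEDist _
  have hV' : Measurable V' := measurable_pi_lambda _ fun i => hX'.measurable_infEDist _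
  have hthr : ∀ m : ℕ, ∃ r : ℝ, 0 < r ∧ r < 1 / 2 ^ m ∧
      ∀ i, P' {ω | V' ω i = ENNReal.ofReal r} = 0 := fun m =>
    exists_threshold P' V' hV' 0 (1 / 2 ^ m) le_rfl (by positivity)
  choose r hr0 hr1 hr2 using hthr
  have hr : ∀ m, r m ≤ 1 / 2 ^ m := fun m => (hr1 m).le
  have hsm : Measurable (sel x r) := measurable_sel hr0 hr
  refine ⟨fun n ω => sel x r (V n ω), fun ω => sel x r (V' ω), fun n => hsm.comp (hV n), ?_,
    hsm.comp hV', ?_, ?_⟩
  · intro n
    filter_upwards [hne n] with ω hω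
    exact sel_mem hxd hr0 hr hω ((hX n).isClosed ω)
  · filter_upwards [hne'] with ω hω
    exact sel_mem hxd hr0 hr hω (hX'.isClosed ω)
  refine ⟨fun n => (hsm.comp (hV n)).aemeasurable, (hsm.comp hV').aemeasurable, ?_⟩
  refine tendsto_of_forall_isOpen_le_liminf' fun G hG => ?_
  simp only [ProbabilityMeasure.coe_mk]
  have hGm := hG.measurableSet
  rw [Measure.map_apply (show Measurable (fun ω => sel x r (V' ω)) from hsm.comp hV') hGm]
  have hcont : ∀ᵐ ω ∂P', ContinuousAt (sel x r) (V' ω) := by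
    have h1 : ∀ᵐ ω ∂P', ∀ i m, V' ω i ≠ ENNReal.ofReal (r m) := by
      rw [ae_all_iff]; intro i
      rw [ae_all_iff]; intro m
      rw [ae_iff]
      simpa using hr2 m i
    filter_upwards [hne', h1] with ω hω h2
    exact continuousAt_sel hr0 hr (good_of_set hxd hr0 hω).1 h2
  have hle : P' ((fun ω => sel x r (V' ω)) ⁻¹' G) ≤ P' (V' ⁻¹' interior (sel x r ⁻¹' G)) := by
    refine measure_mono_ae ?_
    filter_upwards [hcont] with ω hω hmem
    have : sel x r ⁻¹' G ∈ 𝓝 (V' ω) := hω (hG.mem_nhds hmem)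
    exact mem_interior_iff_mem_nhds.2 this
  refine hle.trans ?_
  refine (le_liminf_open V V' hV hV' (fun k => hconv k fun i => x i) isOpen_interior).trans ?_
  refine liminf_le_liminf ?_
  refine Eventually.of_forall fun n => ?_
  rw [Measure.map_apply (show Measurable (fun ω => sel x r (V n ω)) from hsm.comp (hV n)) hGm]
  exact measure_mono (fun ω hω => interior_subset (s := sel x r ⁻¹' G) hω)

end Pool.Agent.Results.MP_eb9ef7_pr.SelectionsConverge
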